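import Pool.Agent.Q268.RL.Pt

/-!
The lower bound for families of close pairs.
-/

set_option autoImplicit false
set_option linter.unusedSectionVars false

namespace Pool.Agent.Q268.RL

open MeasureTheory Real Finset Metric
open scoped RealInnerProductSpace

variable {E : Type*} [NormedAddCommGroup E] [InnerProductSpace ℝ E] [FiniteDimensional ℝ E]
  [MeasurableSpace E] [BorelSpace E]
variable {ι : Type*} [Fintype ι]

/-- The main term. -/
noncomputable def TT (u : ι → E) : ℝ := ∫ ξ in closedBall (0 : E) (1 / 2), Real.exp (-qq u ξ)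

lemma continuous_qq (u : ι → E) : Continuous (qq u) := by
  unfold qq; fun_prop

lemma continuous_Psi (u : ι → E) : Continuous (Psi u) := by
  unfold Psi; fun_prop

/-- The dimensional factor. -/
noncomputable def dd (E : Type*) [NormedAddCommGroup E] [InnerProductSpace ℝ E] : ℝ :=
  2 ^ ((Module.finrank ℝ E : ℝ) / 2)

lemma dd_pos : 0 < dd E := by unfold dd; positivity

lemma nc_half {β : ℝ} (hβ : 0 < β) : nc E (β / 2) = dd E * nc E β := by
  unfold nc dd
  rw [← Real.mul_rpow (by norm_num) (by positivity)]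
  congr 1
  field_simp

lemma tail_le {F : E → ℝ} (hF : PD F) (hF0 : ∀ ξ, 0 ≤ F ξ) {β ρ : ℝ} (hβ : 0 < β) (hρ : 0 ≤ ρ) :
    ∫ ξ in (closedBall (0 : E) ρ)ᶜ, Real.exp (-β * ‖ξ‖ ^ 2) * F ξ
      ≤ Real.exp (-(β * ρ ^ 2 / 2)) * gi (β / 2) F := by
  have hi := hF.integrable hβ
  have hi2 := hF.integrable (half_pos hβ)
  calc ∫ ξ in (closedBall (0 : E) ρ)ᶜ, Real.exp (-β * ‖ξ‖ ^ 2) * F ξ
      ≤ ∫ ξ in (closedBall (0 : E) ρ)ᶜ,
          Real.exp (-(β * ρ ^ 2 / 2)) * (Real.exp (-(β / 2) * ‖ξ‖ ^ 2) * F ξ) := by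
        refine setIntegral_mono_on hi.integrableOn ((hi2.const_mul _).integrableOn)
          measurableSet_closedBall.compl fun ξ hξ => ?_
        have h1 : ρ < ‖ξ‖ := by simpa using hξ
        rw [← mul_assoc, ← Real.exp_add]
        refine mul_le_mul_of_nonneg_right (Real.exp_le_exp.mpr ?_) (hF0 ξ)
        nlinarith [mul_self_le_mul_self hρ h1.le]
    _ ≤ ∫ ξ : E, Real.exp (-(β * ρ ^ 2 / 2)) * (Real.exp (-(β / 2) * ‖ξ‖ ^ 2) * F ξ) := by
        refine setIntegral_le_integral (hi2.const_mul _) (Filter.Eventually.of_forall fun ξ => ?_)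
        have := hF0 ξ
        change 0 ≤ Real.exp (-(β * ρ ^ 2 / 2)) * (Real.exp (-(β / 2) * ‖ξ‖ ^ 2) * F ξ)
        positivity
    _ = _ := by rw [integral_const_mul]; rfl

/-- Localisation of the Gaussian mean of a positive definite function. -/
lemma localise {F : E → ℝ} (hF : PD F) (hF0 : ∀ ξ, 0 ≤ F ξ) {β : ℝ} (hβ : 0 < β)
    (hb : Real.exp (-(β / 8)) * dd E ≤ 1 / 2) :
    gi β F / nc E β ≤ 2 / nc E β * ∫ ξ in closedBall (0 : E) (1 / 2), F ξ := by
  have hi := hF.integrable hβ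
  have hn : 0 < nc E β := nc_pos hβ
  have hs : gi β F = (∫ ξ in closedBall (0 : E) (1 / 2), Real.exp (-β * ‖ξ‖ ^ 2) * F ξ)
      + ∫ ξ in (closedBall (0 : E) (1 / 2))ᶜ, Real.exp (-β * ‖ξ‖ ^ 2) * F ξ :=
    (integral_add_compl measurableSet_closedBall hi).symm
  have h1 : ∫ ξ in closedBall (0 : E) (1 / 2), Real.exp (-β * ‖ξ‖ ^ 2) * F ξ
      ≤ ∫ ξ in closedBall (0 : E) (1 / 2), F ξ := by
    refine setIntegral_mono_on hi.integrableOn
      (hF.continuous.continuousOn.integrableOn_compact (isCompact_closedBall _ _))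
      measurableSet_closedBall fun ξ _ => ?_
    have h2 : Real.exp (-β * ‖ξ‖ ^ 2) ≤ 1 := by
      rw [Real.exp_le_one_iff]
      nlinarith [sq_nonneg ‖ξ‖]
    nlinarith [hF0 ξ]
  have h2 := tail_le hF hF0 hβ (ρ := 1 / 2) (by norm_num)
  have h3 : gi (β / 2) F ≤ gi β F / nc E β * (dd E * nc E β) := by
    have h4 := hF.mono (half_pos hβ) (by linarith : β / 2 ≤ β)
    rw [nc_half hβ, div_le_iff₀ (by have := dd_pos (E := E); positivity)] at h4
    exact h4
  have h5 : Real.exp (-(β * (1 / 2) ^ 2 / 2)) = Real.exp (-(β / 8)) := by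
    congr 1; ring
  rw [h5] at h2
  have hA : 0 ≤ gi β F / nc E β := by
    refine div_nonneg (integral_nonneg fun ξ => ?_) hn.le
    exact mul_nonneg (Real.exp_pos _).le (hF0 ξ)
  have h6 : Real.exp (-(β / 8)) * gi (β / 2) F ≤ 1 / 2 * gi β F := by
    calc Real.exp (-(β / 8)) * gi (β / 2) F
        ≤ Real.exp (-(β / 8)) * (gi β F / nc E β * (dd E * nc E β)) :=
          mul_le_mul_of_nonneg_left h3 (Real.exp_pos _).le
      _ = (Real.exp (-(β / 8)) * dd E) * gi β F := by field_simp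
      _ ≤ 1 / 2 * gi β F := by
          refine mul_le_mul_of_nonneg_right hb ?_
          have := mul_nonneg hA hn.le
          rwa [div_mul_cancel₀ _ hn.ne'] at this
  have h7 : gi β F ≤ 2 * ∫ ξ in closedBall (0 : E) (1 / 2), F ξ := by linarith
  calc gi β F / nc E β ≤ (2 * ∫ ξ in closedBall (0 : E) (1 / 2), F ξ) / nc E β := by gcongr
    _ = _ := by ring

lemma scaled (u : ι → E) :
    ∫ ξ in closedBall (0 : E) (1 / 2), Real.exp (-(qq u ξ / 16))
      ≤ 4 ^ Module.finrank ℝ E * TT u := by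
  have h1 : ∀ ξ : E, Real.exp (-(qq u ξ / 16)) = Real.exp (-qq u ((1 / 4 : ℝ) • ξ)) := by
    intro ξ
    congr 2
    unfold qq
    rw [Finset.sum_div]
    refine Finset.sum_congr rfl fun p _ => ?_
    rw [inner_smul_right]
    ring
  simp_rw [h1]
  rw [Measure.setIntegral_comp_smul_of_pos volume (fun ξ => Real.exp (-qq u ξ)) _
    (by norm_num : (0 : ℝ) < 1 / 4), smul_eq_mul]
  have h2 : (((1 : ℝ) / 4) ^ Module.finrank ℝ E)⁻¹ = 4 ^ Module.finrank ℝ E := by
    rw [← inv_pow]; norm_num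
  rw [h2]
  refine mul_le_mul_of_nonneg_left ?_ (by positivity)
  unfold TT
  refine setIntegral_mono_set ?_ (Filter.Eventually.of_forall fun ξ => (Real.exp_pos _).le) ?_
  · exact (Real.continuous_exp.comp (continuous_qq u).neg).continuousOn.integrableOn_compact
      (isCompact_closedBall _ _)
  · refine LE.le.eventuallyLE ?_
    intro ξ hξ
    obtain ⟨ζ, hζ, rfl⟩ := hξ
    simp only [mem_closedBall_zero_iff] at hζ ⊢
    change ‖(1 / 4 : ℝ) • ζ‖ ≤ 1 / 2
    rw [norm_smul, Real.norm_of_nonneg (by norm_num)]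
    linarith [norm_nonneg ζ]

lemma HH_mean_le {u : ι → E} (hu : ∀ p, ‖u p‖ ≤ 1) {β : ℝ} (hβ : 0 < β)
    (hb : Real.exp (-(β / 8)) * dd E ≤ 1 / 2) :
    gi β (HH u) / nc E β ≤ 2 / nc E β * 4 ^ Module.finrank ℝ E * TT u := by
  have h1 := localise (pd_HH u) (fun ξ => (HH_pos u ξ).le) hβ hb
  have h2 : ∫ ξ in closedBall (0 : E) (1 / 2), HH u ξ
      ≤ ∫ ξ in closedBall (0 : E) (1 / 2), Real.exp (-(qq u ξ / 16)) := by
    refine setIntegral_mono_on
      ((pd_HH u).continuous.continuousOn.integrableOn_compact (isCompact_closedBall _ _))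
      ((Real.continuous_exp.comp ((continuous_qq u).div_const 16).neg).continuousOn.integrableOn_compact
        (isCompact_closedBall _ _)) measurableSet_closedBall fun ξ hξ => ?_
    exact HH_le hu (by simpa using hξ)
  have h3 := scaled u
  have hn : 0 < nc E β := nc_pos hβ
  calc gi β (HH u) / nc E β ≤ 2 / nc E β * ∫ ξ in closedBall (0 : E) (1 / 2), HH u ξ := h1
    _ ≤ 2 / nc E β * (4 ^ Module.finrank ℝ E * TT u) := by
        refine mul_le_mul_of_nonneg_left (h2.trans h3) (by positivity)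
    _ = _ := by ring

/-- Lower bound for the main term. -/
lemma TT_ge {u : ι → E} (hu : ∀ p, ‖u p‖ ≤ 1) [Nonempty ι] :
    Real.exp (-(1 / 4)) * ((1 / (2 * √(Fintype.card ι : ℝ))) ^ Module.finrank ℝ E *
      volume.real (closedBall (0 : E) 1)) ≤ TT u := by
  have hm : (1 : ℝ) ≤ Fintype.card ι := by exact_mod_cast Fintype.card_pos
  set ρ : ℝ := 1 / (2 * √(Fintype.card ι : ℝ)) with hρ
  have hsq : 1 ≤ √(Fintype.card ι : ℝ) := Real.one_le_sqrt.mpr hm
  have hρ0 : 0 < ρ := by positivity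
  have hρ1 : ρ ≤ 1 / 2 := by
    rw [hρ]
    apply one_div_le_one_div_of_le (by norm_num)
    linarith
  have hcont : Continuous fun ξ : E => Real.exp (-qq u ξ) :=
    Real.continuous_exp.comp (continuous_qq u).neg
  have h1 : ∫ ξ in closedBall (0 : E) ρ, Real.exp (-qq u ξ) ≤ TT u := by
    unfold TT
    refine setIntegral_mono_set (hcont.continuousOn.integrableOn_compact (isCompact_closedBall _ _))
      (Filter.Eventually.of_forall fun ξ => (Real.exp_pos _).le) ?_
    exact (closedBall_subset_closedBall hρ1).eventuallyLE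
  have h2 : ∫ _ξ in closedBall (0 : E) ρ, Real.exp (-(1 / 4))
      ≤ ∫ ξ in closedBall (0 : E) ρ, Real.exp (-qq u ξ) := by
    refine setIntegral_mono_on (continuous_const.continuousOn.integrableOn_compact
      (isCompact_closedBall _ _)) (hcont.continuousOn.integrableOn_compact
      (isCompact_closedBall _ _)) measurableSet_closedBall fun ξ hξ => ?_
    have hξ' : ‖ξ‖ ≤ ρ := by simpa using hξ
    apply Real.exp_le_exp.mpr
    have h3 : qq u ξ ≤ ∑ _p : ι, ρ ^ 2 := by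
      unfold qq
      refine Finset.sum_le_sum fun p _ => ?_
      rw [← sq_abs]
      exact pow_le_pow_left₀ (abs_nonneg _) (abs_inner_le hu hξ' p) 2
    rw [Finset.sum_const, Finset.card_univ, nsmul_eq_mul] at h3
    have h4 : (Fintype.card ι : ℝ) * ρ ^ 2 = 1 / 4 := by
      rw [hρ, div_pow, mul_pow, Real.sq_sqrt (by linarith)]
      field_simp
      norm_num
    linarith
  rw [setIntegral_const, smul_eq_mul, Measure.addHaar_real_closedBall' _ _ hρ0.le] at h2
  linarith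

/-- The proportion of signings with short signed sum. -/
noncomputable def pr [DecidableEq ι] (u : ι → E) (r : ℝ) : ℝ :=
  (((Finset.univ : Finset (ι → Bool)).filter fun ε => ‖sm u ε‖ ≤ r).card : ℝ)
    / 2 ^ Fintype.card ι

/-- The Gaussian mean of the signed sums. -/
noncomputable def SS [DecidableEq ι] (u : ι → E) (β : ℝ) : ℝ :=
  ∑ ε : ι → Bool, (1 / 2 ^ Fintype.card ι) * Real.exp (-(‖sm u ε‖ ^ 2 / (4 * β)))

lemma SS_eq [DecidableEq ι] (u : ι → E) {β : ℝ} (hβ : 0 < β) :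
    SS u β = gi β (Psi u) / nc E β := by
  have h1 : Psi u = fun ξ => ∑ ε : ι → Bool, (1 / 2 ^ Fintype.card ι) * Real.cos ⟪sm u ε, ξ⟫ :=
    funext fun ξ => psi_eq u ξ
  rw [h1, gi_sum _ _ hβ, mul_div_cancel_left₀ _ (nc_pos hβ).ne']
  rfl

lemma SS_le [DecidableEq ι] (u : ι → E) {β r : ℝ} (hβ : 0 < β) (hr : 0 ≤ r) :
    SS u β ≤ pr u r + Real.exp (-(r ^ 2 / (8 * β))) * SS u (2 * β) := by
  have hp : pr u r = ∑ ε : ι → Bool, (1 / 2 ^ Fintype.card ι) *
      (if ‖sm u ε‖ ≤ r then (1 : ℝ) else 0) := by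
    unfold pr
    rw [← Finset.mul_sum, Finset.sum_boole]
    ring
  rw [hp]
  unfold SS
  rw [Finset.mul_sum, ← Finset.sum_add_distrib]
  refine Finset.sum_le_sum fun ε _ => ?_
  have hc : (0 : ℝ) ≤ 1 / 2 ^ Fintype.card ι := by positivity
  split_ifs with h
  · have h1 : Real.exp (-(‖sm u ε‖ ^ 2 / (4 * β))) ≤ 1 := by
      rw [Real.exp_le_one_iff]
      have : 0 ≤ ‖sm u ε‖ ^ 2 / (4 * β) := by positivity
      linarith
    have h2 : 0 ≤ Real.exp (-(r ^ 2 / (8 * β))) *
        (1 / 2 ^ Fintype.card ι * Real.exp (-(‖sm u ε‖ ^ 2 / (4 * (2 * β))))) := by positivity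
    nlinarith
  · push Not at h
    have h1 : Real.exp (-(‖sm u ε‖ ^ 2 / (4 * β)))
        ≤ Real.exp (-(r ^ 2 / (8 * β))) * Real.exp (-(‖sm u ε‖ ^ 2 / (4 * (2 * β)))) := by
      rw [← Real.exp_add]
      apply Real.exp_le_exp.mpr
      have h3 : r ^ 2 / (8 * β) ≤ ‖sm u ε‖ ^ 2 / (8 * β) := by gcongr
      have h4 : ‖sm u ε‖ ^ 2 / (4 * β) = ‖sm u ε‖ ^ 2 / (8 * β) + ‖sm u ε‖ ^ 2 / (8 * β) := by
        field_simp; ring
      have h5 : ‖sm u ε‖ ^ 2 / (4 * (2 * β)) = ‖sm u ε‖ ^ 2 / (8 * β) := by ring_nf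
      rw [h4, h5]
      linarith
    calc 1 / 2 ^ Fintype.card ι * Real.exp (-(‖sm u ε‖ ^ 2 / (4 * β)))
        ≤ 1 / 2 ^ Fintype.card ι * (Real.exp (-(r ^ 2 / (8 * β))) *
          Real.exp (-(‖sm u ε‖ ^ 2 / (4 * (2 * β))))) := mul_le_mul_of_nonneg_left h1 hc
      _ = _ := by ring

/-- The Gaussian mean is bounded by the one of the majorant. -/
lemma SS_le_HH [DecidableEq ι] (u : ι → E) {β γ : ℝ} (hβ : 0 < β) (hγ : β ≤ γ) :
    SS u β ≤ gi γ (HH u) / nc E γ := by
  rw [SS_eq u hβ]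
  refine le_trans ?_ ((pd_HH u).mono hβ hγ)
  have hn : 0 < nc E β := nc_pos hβ
  refine div_le_div_of_nonneg_right ?_ hn.le
  have hi : Integrable (fun ξ : E => Real.exp (-β * ‖ξ‖ ^ 2) * Psi u ξ) := by
    have h1 := ((pd_HH u).integrable hβ)
    refine h1.mono' ?_ (Filter.Eventually.of_forall fun ξ => ?_)
    · have : Continuous fun ξ : E => Real.exp (-β * ‖ξ‖ ^ 2) * Psi u ξ := by
        have := continuous_Psi u
        fun_prop
      exact this.aestronglyMeasurable
    · rw [Real.norm_eq_abs, abs_mul, abs_of_pos (Real.exp_pos _)]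
      exact mul_le_mul_of_nonneg_left (abs_psi_le u ξ) (Real.exp_pos _).le
  refine integral_mono hi ((pd_HH u).integrable hβ) fun ξ => ?_
  exact mul_le_mul_of_nonneg_left ((le_abs_self _).trans (abs_psi_le u ξ)) (Real.exp_pos _).le

lemma integrable_Psi (u : ι → E) {β : ℝ} (hβ : 0 < β) :
    Integrable (fun ξ : E => Real.exp (-β * ‖ξ‖ ^ 2) * Psi u ξ) := by
  have h1 := ((pd_HH u).integrable hβ)
  refine h1.mono' ?_ (Filter.Eventually.of_forall fun ξ => ?_)
  · have : Continuous fun ξ : E => Real.exp (-β * ‖ξ‖ ^ 2) * Psi u ξ := by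
      have := continuous_Psi u
      fun_prop
    exact this.aestronglyMeasurable
  · rw [Real.norm_eq_abs, abs_mul, abs_of_pos (Real.exp_pos _)]
    exact mul_le_mul_of_nonneg_left (abs_psi_le u ξ) (Real.exp_pos _).le

lemma int3 {f g h : E → ℝ} (hf : Integrable f) (hg : Integrable g) (hh : Integrable h) :
    ∫ ξ, (f ξ - g ξ - h ξ) = (∫ ξ, f ξ) - (∫ ξ, g ξ) - ∫ ξ, h ξ := by
  have h1 : Integrable (fun ξ => f ξ - g ξ) := hf.sub hg
  rw [integral_sub h1 hh, integral_sub hf hg]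

/-- Lower bound of the Gaussian integral for close pairs. -/
lemma gi_Psi_ge {K : Type*} [Fintype K] [DecidableEq K] (u : K × Bool → E) (hu : ∀ p, ‖u p‖ ≤ 1)
    {δ R β : ℝ} (hδ : 0 ≤ δ) (hd : ∀ i, ‖u (i, true) - u (i, false)‖ ≤ δ) (hβ : 0 < β)
    (hR : 1 / 2 ≤ R) :
    Real.exp (-(β / 4)) * TT u - R * δ / 2 * gi β (HH u)
      - Real.exp (-(β * R ^ 2 / 2)) * gi (β / 2) (HH u) ≤ gi β (Psi u) := by
  have hiH := (pd_HH u).integrable hβ
  have hiP := integrable_Psi u hβ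
  have hR0 : 0 ≤ R := by linarith
  have hκ : 0 ≤ R * δ / 2 := by positivity
  have htail := tail_le (pd_HH u) (fun ξ => (HH_pos u ξ).le) hβ hR0
  have hB : MeasurableSet (closedBall (0 : E) (1 / 2)) := measurableSet_closedBall
  have hC : MeasurableSet (closedBall (0 : E) R)ᶜ := measurableSet_closedBall.compl
  -- the lower function
  have hq : IntegrableOn (fun ξ : E => Real.exp (-(β / 4)) * Real.exp (-qq u ξ))
      (closedBall (0 : E) (1 / 2)) := by
    refine Continuous.continuousOn ?_ |>.integrableOn_compact (isCompact_closedBall _ _)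
    have := continuous_qq u
    fun_prop
  have h1 : ∀ ξ : E, (closedBall (0 : E) (1 / 2)).indicator
      (fun ξ => Real.exp (-(β / 4)) * Real.exp (-qq u ξ)) ξ
      - R * δ / 2 * (Real.exp (-β * ‖ξ‖ ^ 2) * HH u ξ)
      - (closedBall (0 : E) R)ᶜ.indicator (fun ξ => Real.exp (-β * ‖ξ‖ ^ 2) * HH u ξ) ξ
      ≤ Real.exp (-β * ‖ξ‖ ^ 2) * Psi u ξ := by
    intro ξ
    have hH := HH_pos u ξ
    have he := Real.exp_pos (-β * ‖ξ‖ ^ 2)
    have hpos : 0 ≤ R * δ / 2 * (Real.exp (-β * ‖ξ‖ ^ 2) * HH u ξ) := by positivity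
    by_cases h2 : ξ ∈ closedBall (0 : E) (1 / 2)
    · rw [Set.indicator_of_mem h2]
      have h3 : ‖ξ‖ ≤ 1 / 2 := by simpa using h2
      have h4 : ξ ∉ (closedBall (0 : E) R)ᶜ := by
        simp only [Set.mem_compl_iff, mem_closedBall_zero_iff, not_not]
        linarith
      rw [Set.indicator_of_notMem h4]
      have h5 : Real.exp (-(β / 4)) ≤ Real.exp (-β * ‖ξ‖ ^ 2) := by
        apply Real.exp_le_exp.mpr
        have : ‖ξ‖ ^ 2 ≤ 1 / 4 := by nlinarith [norm_nonneg ξ]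
        nlinarith
      have h6 := psi_ge hu h3
      have h7 : Real.exp (-(β / 4)) * Real.exp (-qq u ξ) ≤ Real.exp (-β * ‖ξ‖ ^ 2) * Psi u ξ :=
        mul_le_mul h5 h6 (Real.exp_pos _).le he.le
      linarith
    · rw [Set.indicator_of_notMem h2]
      by_cases h3 : ξ ∈ (closedBall (0 : E) R)ᶜ
      · rw [Set.indicator_of_mem h3]
        have h4 : -(HH u ξ) ≤ Psi u ξ := by
          have := abs_psi_le u ξ
          have := neg_abs_le (Psi u ξ)
          linarith
        have h5 := mul_le_mul_of_nonneg_left h4 he.le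
        linarith
      · rw [Set.indicator_of_notMem h3]
        have h4 : ‖ξ‖ ≤ R := by simpa using h3
        have h5 := mul_le_mul_of_nonneg_left (psi_neg u hδ hd h4) he.le
        linarith
  have h2 := integral_mono (((hq.integrable_indicator hB).sub (hiH.const_mul (R * δ / 2))).sub
    (hiH.integrableOn.integrable_indicator hC)) hiP h1
  have h3 : ∫ ξ : E, ((closedBall (0 : E) (1 / 2)).indicator
      (fun ξ => Real.exp (-(β / 4)) * Real.exp (-qq u ξ)) ξ
      - R * δ / 2 * (Real.exp (-β * ‖ξ‖ ^ 2) * HH u ξ)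
      - (closedBall (0 : E) R)ᶜ.indicator (fun ξ => Real.exp (-β * ‖ξ‖ ^ 2) * HH u ξ) ξ)
      = Real.exp (-(β / 4)) * TT u - R * δ / 2 * gi β (HH u)
        - ∫ ξ in (closedBall (0 : E) R)ᶜ, Real.exp (-β * ‖ξ‖ ^ 2) * HH u ξ := by
    rw [int3 (hq.integrable_indicator hB) (hiH.const_mul (R * δ / 2))
      (hiH.integrableOn.integrable_indicator hC),
      integral_indicator hB, integral_indicator hC, integral_const_mul, integral_const_mul]
    rfl
  have h4 : ∫ ξ : E, ((closedBall (0 : E) (1 / 2)).indicator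
      (fun ξ => Real.exp (-(β / 4)) * Real.exp (-qq u ξ)) ξ
      - R * δ / 2 * (Real.exp (-β * ‖ξ‖ ^ 2) * HH u ξ)
      - (closedBall (0 : E) R)ᶜ.indicator (fun ξ => Real.exp (-β * ‖ξ‖ ^ 2) * HH u ξ) ξ)
      ≤ gi β (Psi u) := h2
  linarith

end Pool.Agent.Q268.RL
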