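import Pool.Agent.Q268.RL.NP

/-!
Families of close pairs of vectors: the proportion of signings with a short signed sum is at least
a constant times `|K| ^ (-d/2)`.
-/

set_option autoImplicit false
set_option linter.unusedSectionVars false

namespace Pool.Agent.Q268.RL

open MeasureTheory Real Finset Metric
open scoped RealInnerProductSpace

lemma exists_beta (E : Type*) [NormedAddCommGroup E] [InnerProductSpace ℝ E] {K₀ β₀ η : ℝ}
    (hK : 0 < K₀) (hβ₀ : 0 < β₀) (hη : 0 < η) :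
    ∃ β : ℝ, 0 < β ∧ 2 * β ≤ β₀ ∧
      K₀ * Real.exp (-(η ^ 2 / (8 * β))) ≤ Real.exp (-(β / 4)) / nc E β / 4 := by
  set d2 : ℝ := (Module.finrank ℝ E : ℝ) / 2 with hd2
  have hs : 0 < η ^ 2 / 8 := by positivity
  have hpi : 0 < π ^ d2 := Real.rpow_pos_of_pos Real.pi_pos _
  set C : ℝ := Real.exp (-(β₀ / 8)) / (4 * K₀ * π ^ d2) with hC
  have hC0 : 0 < C := by rw [hC]; positivity
  have h1 := (tendsto_rpow_mul_exp_neg_mul_atTop_nhds_zero d2 (η ^ 2 / 8) hs).eventually_le_const hC0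
  obtain ⟨t, ht1, ht2, ht3⟩ := (h1.and ((Filter.eventually_ge_atTop (2 / β₀)).and
    (Filter.eventually_gt_atTop 0))).exists
  have htb : 1 / t ≤ β₀ / 2 := by
    rw [div_le_iff₀ hβ₀] at ht2
    rw [div_le_div_iff₀ ht3 two_pos]
    linarith
  refine ⟨1 / t, by positivity, by linarith, ?_⟩
  have htd : 0 < t ^ d2 := Real.rpow_pos_of_pos ht3 _
  have hnc : nc E (1 / t) = π ^ d2 * t ^ d2 := by
    unfold nc
    rw [← hd2, ← Real.mul_rpow Real.pi_pos.le ht3.le]
    congr 1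
    field_simp
  have he : η ^ 2 / (8 * (1 / t)) = η ^ 2 / 8 * t := by field_simp
  rw [hnc, he]
  have h2 : Real.exp (-(β₀ / 8)) ≤ Real.exp (-(1 / t / 4)) := by
    apply Real.exp_le_exp.mpr
    linarith
  have h3 : t ^ d2 * Real.exp (-(η ^ 2 / 8 * t)) ≤ C := by
    rw [← neg_mul]
    exact ht1
  calc K₀ * Real.exp (-(η ^ 2 / 8 * t))
      = K₀ * (t ^ d2 * Real.exp (-(η ^ 2 / 8 * t))) / t ^ d2 := by field_simp
    _ ≤ K₀ * C / t ^ d2 := by gcongr
    _ = Real.exp (-(β₀ / 8)) / (π ^ d2 * t ^ d2) / 4 := by rw [hC]; field_simp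
    _ ≤ _ := by gcongr

variable {E : Type*} [NormedAddCommGroup E] [InnerProductSpace ℝ E] [FiniteDimensional ℝ E]
  [MeasurableSpace E] [BorelSpace E]

lemma exists_beta0 : ∃ β₀ : ℝ, 0 < β₀ ∧ Real.exp (-(β₀ / 8)) * dd E ≤ 1 / 2 := by
  have hd := dd_pos (E := E)
  refine ⟨16 * dd E, by positivity, ?_⟩
  have h1 : Real.exp (-(16 * dd E / 8)) ≤ 1 / (2 * dd E) := by
    rw [Real.exp_neg, ← one_div]
    apply one_div_le_one_div_of_le (by positivity)
    have := Real.add_one_le_exp (16 * dd E / 8)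
    linarith
  calc Real.exp (-(16 * dd E / 8)) * dd E ≤ 1 / (2 * dd E) * dd E := by gcongr
    _ = 1 / 2 := by field_simp

lemma exp_neg_le_inv {x : ℝ} (hx : 0 < x) : Real.exp (-x) ≤ 1 / x := by
  rw [Real.exp_neg, ← one_div]
  apply one_div_le_one_div_of_le hx
  linarith [Real.add_one_le_exp x]

/-- Close pairs. -/
theorem near_pairs (E : Type*) [NormedAddCommGroup E] [InnerProductSpace ℝ E]
    [FiniteDimensional ℝ E] {η : ℝ} (hη : 0 < η) :
    ∃ δ c : ℝ, 0 < δ ∧ 0 < c ∧ ∀ (K : Type) [Fintype K] [DecidableEq K] [Nonempty K]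
      (u : K × Bool → E), (∀ p, ‖u p‖ ≤ 1) → (∀ i, ‖u (i, true) - u (i, false)‖ ≤ δ) →
      c * (1 / √(Fintype.card K : ℝ)) ^ Module.finrank ℝ E ≤ pr u η := by
  let _ : MeasurableSpace E := borel E
  have _ : BorelSpace E := ⟨rfl⟩
  obtain ⟨β₀, hβ₀, hb⟩ := exists_beta0 (E := E)
  have hnc0 : 0 < nc E β₀ := nc_pos hβ₀
  set K₀ : ℝ := 2 / nc E β₀ * 4 ^ Module.finrank ℝ E with hK₀
  have hK : 0 < K₀ := by rw [hK₀]; positivity
  obtain ⟨β, hβ, hβ2, hβη⟩ := exists_beta E hK hβ₀ hη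
  have hnc : 0 < nc E β := nc_pos hβ
  set g : ℝ := Real.exp (-(β / 4)) / nc E β with hg
  have hg0 : 0 < g := by rw [hg]; positivity
  have hdd := dd_pos (E := E)
  set R : ℝ := 1 + 8 * K₀ * dd E / (β * g) with hR
  have hR1 : 1 ≤ R := by
    have : 0 ≤ 8 * K₀ * dd E / (β * g) := by positivity
    linarith
  have hR0 : 0 < R := by linarith
  set δ : ℝ := g / (2 * K₀ * R) with hδ
  have hδ0 : 0 < δ := by rw [hδ]; positivity
  have hv : 0 < volume.real (closedBall (0 : E) 1) := by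
    rw [Measure.real, ENNReal.toReal_pos_iff]
    exact ⟨measure_closedBall_pos _ _ one_pos, measure_closedBall_lt_top⟩
  set c : ℝ := g / 4 * (Real.exp (-(1 / 4)) * ((1 / (2 * √2)) ^ Module.finrank ℝ E *
    volume.real (closedBall (0 : E) 1))) with hc
  refine ⟨δ, c, hδ0, by rw [hc]; positivity, ?_⟩
  intro K _ _ _ u hu hd
  have hT := TT_ge hu
  have hTpos : 0 < TT u := lt_of_lt_of_le (by positivity) hT
  set A : ℝ := gi β₀ (HH u) / nc E β₀ with hA
  have hAT : A ≤ K₀ * TT u := HH_mean_le hu hβ₀ hb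
  have hA0 : 0 ≤ A := by
    refine div_nonneg (integral_nonneg fun ξ => ?_) hnc0.le
    exact mul_nonneg (Real.exp_pos _).le (HH_pos u ξ).le
  -- upper bound for the mean at `2 β`
  have h1 : SS u (2 * β) ≤ K₀ * TT u := (SS_le_HH u (by linarith) hβ2).trans hAT
  -- lower bound for the mean at `β`
  have h2 := gi_Psi_ge u hu hδ0.le hd hβ (R := R) (by linarith)
  have h3 : gi β (HH u) ≤ A * nc E β := by
    have h := (pd_HH u).mono hβ (by linarith : β ≤ β₀)
    rwa [div_le_iff₀ hnc] at h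
  have h4 : gi (β / 2) (HH u) ≤ A * (dd E * nc E β) := by
    have h := (pd_HH u).mono (half_pos hβ) (by linarith : β / 2 ≤ β₀)
    rwa [nc_half hβ, div_le_iff₀ (by positivity)] at h
  have h5 : SS u β = gi β (Psi u) / nc E β := SS_eq u hβ
  have h6 : g * TT u - R * δ / 2 * A - Real.exp (-(β * R ^ 2 / 2)) * (dd E * A) ≤ SS u β := by
    rw [h5, le_div_iff₀ hnc]
    have e1 : g * TT u * nc E β = Real.exp (-(β / 4)) * TT u := by rw [hg]; field_simp
    have e2 : R * δ / 2 * gi β (HH u) ≤ R * δ / 2 * (A * nc E β) :=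
      mul_le_mul_of_nonneg_left h3 (by positivity)
    have e3 : Real.exp (-(β * R ^ 2 / 2)) * gi (β / 2) (HH u)
        ≤ Real.exp (-(β * R ^ 2 / 2)) * (A * (dd E * nc E β)) :=
      mul_le_mul_of_nonneg_left h4 (Real.exp_pos _).le
    nlinarith [e1, e2, e3, h2]
  have h7 := SS_le u (r := η) hβ hη.le
  have h8 : Real.exp (-(η ^ 2 / (8 * β))) * SS u (2 * β) ≤ g / 4 * TT u := by
    calc Real.exp (-(η ^ 2 / (8 * β))) * SS u (2 * β)
        ≤ Real.exp (-(η ^ 2 / (8 * β))) * (K₀ * TT u) := by gcongr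
      _ = K₀ * Real.exp (-(η ^ 2 / (8 * β))) * TT u := by ring
      _ ≤ g / 4 * TT u := by gcongr
  have h9 : R * δ / 2 * A ≤ g / 4 * TT u := by
    calc R * δ / 2 * A ≤ R * δ / 2 * (K₀ * TT u) := by gcongr
      _ = g / 4 * TT u := by rw [hδ]; field_simp; ring
  have h10 : Real.exp (-(β * R ^ 2 / 2)) * (dd E * A) ≤ g / 4 * TT u := by
    have e1 : Real.exp (-(β * R ^ 2 / 2)) ≤ 2 / (β * R) := by
      refine (exp_neg_le_inv (by positivity)).trans ?_
      rw [one_div_div]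
      apply div_le_div_of_nonneg_left (by norm_num) (by positivity)
      have h13 : R ≤ R ^ 2 := by nlinarith
      exact mul_le_mul_of_nonneg_left h13 hβ.le
    have e2 : 8 * K₀ * dd E ≤ R * (β * g) := by
      have h := (show 8 * K₀ * dd E / (β * g) ≤ R by linarith)
      rwa [div_le_iff₀ (by positivity)] at h
    calc Real.exp (-(β * R ^ 2 / 2)) * (dd E * A)
        ≤ 2 / (β * R) * (dd E * (K₀ * TT u)) := by gcongr
      _ = (8 * K₀ * dd E) / (4 * (β * R)) * TT u := by field_simp; ring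
      _ ≤ (R * (β * g)) / (4 * (β * R)) * TT u := by gcongr
      _ = g / 4 * TT u := by field_simp
  have h11 : g / 4 * TT u ≤ pr u η := by linarith
  refine le_trans ?_ h11
  have hcard : (Fintype.card (K × Bool) : ℝ) = 2 * Fintype.card K := by
    rw [Fintype.card_prod, Fintype.card_bool]
    push_cast
    ring
  have h12 : (1 / (2 * √(Fintype.card (K × Bool) : ℝ))) ^ Module.finrank ℝ E
      = (1 / (2 * √2)) ^ Module.finrank ℝ E * (1 / √(Fintype.card K : ℝ)) ^ Module.finrank ℝ E := by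
    rw [← mul_pow, hcard, Real.sqrt_mul (by norm_num)]
    congr 1
    rw [div_mul_div_comm]
    ring
  rw [h12] at hT
  calc c * (1 / √(Fintype.card K : ℝ)) ^ Module.finrank ℝ E
      = g / 4 * (Real.exp (-(1 / 4)) * ((1 / (2 * √2)) ^ Module.finrank ℝ E *
        (1 / √(Fintype.card K : ℝ)) ^ Module.finrank ℝ E * volume.real (closedBall (0 : E) 1))) := by
          rw [hc]; ring
    _ ≤ g / 4 * TT u := by gcongr

end Pool.Agent.Q268.RL
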