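import Mathlib

/-!
Gaussian integrals of nonnegative combinations of cosines.
-/

set_option autoImplicit false
set_option linter.unusedSectionVars false

namespace Pool.Agent.Q268.RL

open MeasureTheory Real Finset
open scoped RealInnerProductSpace

variable {E : Type*} [NormedAddCommGroup E] [InnerProductSpace ℝ E]

/-- A nonnegative finite combination of functions `ξ ↦ cos ⟪z, ξ⟫`. -/
def PD (F : E → ℝ) : Prop :=
  ∃ (ι : Type) (_ : Fintype ι) (c : ι → ℝ) (z : ι → E), (∀ j, 0 ≤ c j) ∧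
    ∀ ξ, F ξ = ∑ j, c j * Real.cos ⟪z j, ξ⟫

lemma pd_cos (z : E) : PD (fun ξ : E => Real.cos ⟪z, ξ⟫) :=
  ⟨Unit, inferInstance, fun _ => 1, fun _ => z, fun _ => zero_le_one, fun ξ => by simp⟩

lemma pd_const (a : ℝ) (ha : 0 ≤ a) : PD (fun _ : E => a) :=
  ⟨Unit, inferInstance, fun _ => a, fun _ => 0, fun _ => ha, fun ξ => by simp⟩

lemma PD.smul {F : E → ℝ} (h : PD F) (a : ℝ) (ha : 0 ≤ a) : PD (fun ξ => a * F ξ) := by
  obtain ⟨ι, _, c, z, hc, hF⟩ := h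
  refine ⟨ι, inferInstance, fun j => a * c j, z, fun j => mul_nonneg ha (hc j), fun ξ => ?_⟩
  beta_reduce
  rw [hF, Finset.mul_sum]
  exact Finset.sum_congr rfl fun j _ => by ring

lemma PD.add {F G : E → ℝ} (h : PD F) (h' : PD G) : PD (fun ξ => F ξ + G ξ) := by
  obtain ⟨ι, _, c, z, hc, hF⟩ := h
  obtain ⟨κ, _, c', z', hc', hG⟩ := h'
  refine ⟨ι ⊕ κ, inferInstance, Sum.elim c c', Sum.elim z z', ?_, fun ξ => ?_⟩
  · rintro (j | j)
    · exact hc j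
    · exact hc' j
  · beta_reduce
    rw [hF, hG, Fintype.sum_sum_type]
    rfl

lemma PD.mul {F G : E → ℝ} (h : PD F) (h' : PD G) : PD (fun ξ => F ξ * G ξ) := by
  obtain ⟨ι, _, c, z, hc, hF⟩ := h
  obtain ⟨κ, _, c', z', hc', hG⟩ := h'
  refine ⟨ι × κ × Bool, inferInstance, fun p => c p.1 * c' p.2.1 / 2,
    fun p => if p.2.2 then z p.1 + z' p.2.1 else z p.1 - z' p.2.1, ?_, fun ξ => ?_⟩
  · intro p
    have := mul_nonneg (hc p.1) (hc' p.2.1)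
    positivity
  · beta_reduce
    rw [hF, hG, Finset.sum_mul_sum, Fintype.sum_prod_type]
    refine Finset.sum_congr rfl fun i _ => ?_
    rw [Fintype.sum_prod_type]
    refine Finset.sum_congr rfl fun j _ => ?_
    rw [Fintype.sum_bool]
    simp only [if_true, Bool.false_eq_true, if_false]
    rw [inner_add_left, inner_sub_left, Real.cos_add, Real.cos_sub]
    ring

lemma pd_prod {κ : Type*} (s : Finset κ) (F : κ → E → ℝ) (h : ∀ i ∈ s, PD (F i)) :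
    PD (fun ξ => ∏ i ∈ s, F i ξ) := by
  classical
  induction s using Finset.induction_on with
  | empty => simpa using pd_const (E := E) 1 zero_le_one
  | insert a s ha ih =>
    have h1 := (h a (Finset.mem_insert_self a s)).mul
      (ih fun i hi => h i (Finset.mem_insert_of_mem hi))
    simpa [Finset.prod_insert ha] using h1

variable [FiniteDimensional ℝ E] [MeasurableSpace E] [BorelSpace E]

/-- The normalising constant. -/
noncomputable def nc (E : Type*) [NormedAddCommGroup E] [InnerProductSpace ℝ E]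
    (β : ℝ) : ℝ := (π / β) ^ ((Module.finrank ℝ E : ℝ) / 2)

/-- The Gaussian integral `∫ exp (-β |ξ|²) F(ξ) dξ`. -/
noncomputable def gi (β : ℝ) (F : E → ℝ) : ℝ := ∫ ξ : E, Real.exp (-β * ‖ξ‖ ^ 2) * F ξ

lemma re_form (β : ℝ) (z ξ : E) :
    (Complex.exp (-(β : ℂ) * ‖ξ‖ ^ 2 + Complex.I * (⟪z, ξ⟫ : ℝ))).re
      = Real.exp (-β * ‖ξ‖ ^ 2) * Real.cos ⟪z, ξ⟫ := by
  rw [Complex.exp_re]
  have h1 : (-(β : ℂ) * ‖ξ‖ ^ 2 + Complex.I * (⟪z, ξ⟫ : ℝ)).re = -β * ‖ξ‖ ^ 2 := by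
    have : (-(β : ℂ) * ‖ξ‖ ^ 2 + Complex.I * (⟪z, ξ⟫ : ℝ))
        = ((-β * ‖ξ‖ ^ 2 : ℝ) : ℂ) + Complex.I * (⟪z, ξ⟫ : ℝ) := by push_cast; ring
    rw [this, Complex.add_re, Complex.ofReal_re]
    simp
  have h2 : (-(β : ℂ) * ‖ξ‖ ^ 2 + Complex.I * (⟪z, ξ⟫ : ℝ)).im = ⟪z, ξ⟫ := by
    have : (-(β : ℂ) * ‖ξ‖ ^ 2 + Complex.I * (⟪z, ξ⟫ : ℝ))
        = ((-β * ‖ξ‖ ^ 2 : ℝ) : ℂ) + Complex.I * (⟪z, ξ⟫ : ℝ) := by push_cast; ring
    rw [this, Complex.add_im, Complex.ofReal_im]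
    simp
  rw [h1, h2]

lemma integrable_cos {β : ℝ} (hβ : 0 < β) (z : E) :
    Integrable (fun ξ : E => Real.exp (-β * ‖ξ‖ ^ 2) * Real.cos ⟪z, ξ⟫) := by
  have h := (GaussianFourier.integrable_cexp_neg_mul_sq_norm_add (V := E)
    (b := (β : ℂ)) (by simpa using hβ) Complex.I z).re
  refine h.congr (Filter.Eventually.of_forall fun ξ => ?_)
  exact re_form β z ξ

lemma gi_cos {β : ℝ} (hβ : 0 < β) (z : E) :
    gi β (fun ξ : E => Real.cos ⟪z, ξ⟫) = nc E β * Real.exp (-(‖z‖ ^ 2 / (4 * β))) := by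
  have hi := GaussianFourier.integrable_cexp_neg_mul_sq_norm_add (V := E)
    (b := (β : ℂ)) (by simpa using hβ) Complex.I z
  have h := GaussianFourier.integral_cexp_neg_mul_sq_norm_add (V := E)
    (b := (β : ℂ)) (by simpa using hβ) Complex.I z
  have h2 := congrArg Complex.re h
  have h3 : (∫ v : E, Complex.exp (-(β : ℂ) * ‖v‖ ^ 2 + Complex.I * (⟪z, v⟫ : ℝ))).re
      = ∫ v : E, (Complex.exp (-(β : ℂ) * ‖v‖ ^ 2 + Complex.I * (⟪z, v⟫ : ℝ))).re :=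
    (integral_re hi).symm
  rw [h3] at h2
  unfold gi nc
  rw [← show (∫ v : E, (Complex.exp (-(β : ℂ) * ‖v‖ ^ 2 + Complex.I * (⟪z, v⟫ : ℝ))).re)
      = ∫ ξ : E, Real.exp (-β * ‖ξ‖ ^ 2) * Real.cos ⟪z, ξ⟫ from
      integral_congr_ae (Filter.Eventually.of_forall fun ξ => re_form β z ξ), h2]
  have h4 : ((π : ℂ) / β) ^ ((Module.finrank ℝ E : ℂ) / 2)
      * Complex.exp (Complex.I ^ 2 * ‖z‖ ^ 2 / (4 * β))
      = (((π / β) ^ ((Module.finrank ℝ E : ℝ) / 2)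
        * Real.exp (-(‖z‖ ^ 2 / (4 * β))) : ℝ) : ℂ) := by
    rw [Complex.I_sq]
    push_cast
    rw [Complex.ofReal_cpow (by positivity)]
    push_cast
    congr 2
    ring
  rw [h4, Complex.ofReal_re]

lemma nc_pos {β : ℝ} (hβ : 0 < β) : 0 < nc E β := by
  unfold nc; positivity

lemma PD.integrable {F : E → ℝ} (h : PD F) {β : ℝ} (hβ : 0 < β) :
    Integrable (fun ξ : E => Real.exp (-β * ‖ξ‖ ^ 2) * F ξ) := by
  obtain ⟨ι, _, c, z, hc, hF⟩ := h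
  have h1 : (fun ξ : E => Real.exp (-β * ‖ξ‖ ^ 2) * F ξ)
      = fun ξ => ∑ j, c j * (Real.exp (-β * ‖ξ‖ ^ 2) * Real.cos ⟪z j, ξ⟫) := by
    funext ξ
    rw [hF, Finset.mul_sum]
    exact Finset.sum_congr rfl fun j _ => by ring
  rw [h1]
  exact integrable_finsetSum _ fun j _ => (integrable_cos hβ (z j)).const_mul (c j)

lemma gi_sum {ι : Type*} [Fintype ι] (c : ι → ℝ) (z : ι → E) {β : ℝ} (hβ : 0 < β) :
    gi β (fun ξ : E => ∑ j, c j * Real.cos ⟪z j, ξ⟫)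
      = nc E β * ∑ j, c j * Real.exp (-(‖z j‖ ^ 2 / (4 * β))) := by
  unfold gi
  have h1 : (fun ξ : E => Real.exp (-β * ‖ξ‖ ^ 2) * ∑ j, c j * Real.cos ⟪z j, ξ⟫)
      = fun ξ => ∑ j, c j * (Real.exp (-β * ‖ξ‖ ^ 2) * Real.cos ⟪z j, ξ⟫) := by
    funext ξ
    rw [Finset.mul_sum]
    exact Finset.sum_congr rfl fun j _ => by ring
  rw [h1, integral_finsetSum _ fun j _ => (integrable_cos hβ (z j)).const_mul (c j),
    Finset.mul_sum]
  refine Finset.sum_congr rfl fun j _ => ?_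
  rw [integral_const_mul]
  have := gi_cos hβ (z j)
  unfold gi at this
  rw [this]
  ring

/-- Monotonicity of the normalised Gaussian integral. -/
lemma PD.mono {F : E → ℝ} (h : PD F) {β γ : ℝ} (hβ : 0 < β) (hγ : β ≤ γ) :
    gi β F / nc E β ≤ gi γ F / nc E γ := by
  obtain ⟨ι, _, c, z, hc, hF⟩ := h
  have hγ0 : 0 < γ := lt_of_lt_of_le hβ hγ
  have h1 : F = fun ξ => ∑ j, c j * Real.cos ⟪z j, ξ⟫ := funext hF
  rw [h1, gi_sum c z hβ, gi_sum c z hγ0, mul_div_cancel_left₀ _ (nc_pos hβ).ne',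
    mul_div_cancel_left₀ _ (nc_pos hγ0).ne']
  refine Finset.sum_le_sum fun j _ => mul_le_mul_of_nonneg_left ?_ (hc j)
  apply Real.exp_le_exp.mpr
  have : ‖z j‖ ^ 2 / (4 * γ) ≤ ‖z j‖ ^ 2 / (4 * β) := by gcongr
  linarith

lemma PD.continuous {F : E → ℝ} (h : PD F) : Continuous F := by
  obtain ⟨ι, _, c, z, hc, hF⟩ := h
  rw [funext hF]
  fun_prop

end Pool.Agent.Q268.RL
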