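import Pool.Agent.Q268.RL.PD

/-!
Pointwise inequalities for products of cosines.
-/

set_option autoImplicit false
set_option linter.unusedSectionVars false

namespace Pool.Agent.Q268.RL

open MeasureTheory Real Finset
open scoped RealInnerProductSpace

variable {E : Type*} [NormedAddCommGroup E] [InnerProductSpace ℝ E]
variable {ι : Type*} [Fintype ι]

/-- The sign of a Boolean. -/
def sg (b : Bool) : ℝ := if b then 1 else -1

/-- The signed sum. -/
noncomputable def sm (u : ι → E) (ε : ι → Bool) : E := ∑ i, sg (ε i) • u i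

lemma sum_cos_real [DecidableEq ι] (a : ι → ℝ) :
    ∑ ε : ι → Bool, Real.cos (∑ i, sg (ε i) * a i) = 2 ^ Fintype.card ι * ∏ i, Real.cos (a i) := by
  have h1 : ∑ ε : ι → Bool, Complex.exp (((∑ i, sg (ε i) * a i : ℝ) : ℂ) * Complex.I)
      = ∏ i, (2 * Complex.cos (a i)) := by
    have h2 : ∀ i, (2 * Complex.cos (a i) : ℂ)
        = ∑ b : Bool, Complex.exp (((sg b * a i : ℝ) : ℂ) * Complex.I) := by
      intro i
      rw [Fintype.sum_bool, Complex.two_cos]
      simp [sg]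
    simp_rw [h2]
    rw [Finset.prod_univ_sum, Fintype.piFinset_univ]
    refine Finset.sum_congr rfl fun ε _ => ?_
    rw [← Complex.exp_sum]
    congr 1
    push_cast
    rw [Finset.sum_mul]
  have h3 := congrArg Complex.re h1
  rw [Complex.re_sum] at h3
  simp_rw [Complex.exp_ofReal_mul_I_re] at h3
  rw [h3, Finset.prod_mul_distrib, Finset.prod_const, Finset.card_univ]
  have h4 : (2 : ℂ) ^ Fintype.card ι * ∏ i, Complex.cos (a i)
      = ((2 ^ Fintype.card ι * ∏ i, Real.cos (a i) : ℝ) : ℂ) := by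
    push_cast
    rfl
  rw [h4, Complex.ofReal_re]

/-- The product of the cosines. -/
noncomputable def Psi (u : ι → E) (ξ : E) : ℝ := ∏ p, Real.cos ⟪u p, ξ⟫

/-- The majorant. -/
noncomputable def hh (t : ℝ) : ℝ := (3 + Real.cos t ^ 2) / 4

noncomputable def HH (u : ι → E) (ξ : E) : ℝ := ∏ p, hh ⟪u p, ξ⟫

noncomputable def qq (u : ι → E) (ξ : E) : ℝ := ∑ p, ⟪u p, ξ⟫ ^ 2

lemma psi_eq [DecidableEq ι] (u : ι → E) (ξ : E) :
    Psi u ξ = ∑ ε : ι → Bool, (1 / 2 ^ Fintype.card ι) * Real.cos ⟪sm u ε, ξ⟫ := by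
  have h := sum_cos_real (fun p => ⟪u p, ξ⟫)
  have h2 : ∀ ε : ι → Bool, ⟪sm u ε, ξ⟫ = ∑ i, sg (ε i) * ⟪u i, ξ⟫ := by
    intro ε
    unfold sm
    rw [sum_inner]
    exact Finset.sum_congr rfl fun i _ => by rw [inner_smul_left]; rfl
  simp_rw [h2]
  rw [← Finset.mul_sum, h, Psi]
  field_simp

lemma hh_pos (t : ℝ) : 0 < hh t := by unfold hh; positivity

lemma HH_pos (u : ι → E) (ξ : E) : 0 < HH u ξ := Finset.prod_pos fun p _ => hh_pos _

lemma abs_cos_le_hh (t : ℝ) : |Real.cos t| ≤ hh t := by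
  unfold hh
  have h1 : |Real.cos t| ≤ 1 := Real.abs_cos_le_one t
  have h0 : 0 ≤ |Real.cos t| := abs_nonneg _
  rw [← sq_abs (Real.cos t)]
  nlinarith

lemma abs_cos_le_hh_sq (t : ℝ) : |Real.cos t| ≤ hh t ^ 2 := by
  unfold hh
  have h1 : |Real.cos t| ≤ 1 := Real.abs_cos_le_one t
  have h0 : 0 ≤ |Real.cos t| := abs_nonneg _
  rw [← sq_abs (Real.cos t)]
  set x := |Real.cos t|
  have h2 : 0 ≤ (x - 1) ^ 2 * (x ^ 2 + 2 * x + 9) := by positivity
  nlinarith [h2]

lemma abs_psi_le (u : ι → E) (ξ : E) : |Psi u ξ| ≤ HH u ξ := by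
  unfold Psi HH
  rw [Finset.abs_prod]
  exact Finset.prod_le_prod (fun p _ => abs_nonneg _) fun p _ => abs_cos_le_hh _

lemma cos_ge_exp {t : ℝ} (ht : |t| ≤ 1 / 2) : Real.exp (-t ^ 2) ≤ Real.cos t := by
  have h1 : 1 - t ^ 2 / 2 ≤ Real.cos t := Real.one_sub_sq_div_two_le_cos
  have h2 : t ^ 2 ≤ 1 / 4 := by
    rw [← sq_abs]; nlinarith [abs_nonneg t]
  have h3 : Real.exp (-t ^ 2) ≤ 1 / (1 + t ^ 2) := by
    rw [Real.exp_neg, ← one_div]
    apply one_div_le_one_div_of_le (by positivity)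
    linarith [Real.add_one_le_exp (t ^ 2)]
  have h4 : 1 / (1 + t ^ 2) ≤ 1 - t ^ 2 / 2 := by
    rw [div_le_iff₀ (by positivity)]
    nlinarith [sq_nonneg t]
  linarith

lemma hh_le_exp {t : ℝ} (ht : |t| ≤ 1 / 2) : hh t ≤ Real.exp (-(t ^ 2 / 16)) := by
  have h1 : hh t = 1 - Real.sin t ^ 2 / 4 := by
    unfold hh
    have := Real.sin_sq_add_cos_sq t
    linarith
  have h2 : |t| / 2 ≤ |Real.sin t| := by
    have key : ∀ s : ℝ, 0 ≤ s → s ≤ 1 / 2 → s / 2 ≤ Real.sin s := by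
      intro s hs0 hs
      rcases hs0.eq_or_lt with h0 | h0
      · rw [← h0]; simp
      · have := Real.sin_gt_sub_cube h0
        nlinarith [pow_pos h0 3, mul_pos h0 h0, mul_nonneg h0.le (sub_nonneg.mpr hs),
          mul_nonneg (mul_pos h0 h0).le (sub_nonneg.mpr hs)]
    rcases le_total 0 t with h0 | h0
    · rw [abs_of_nonneg h0] at ht ⊢
      exact (key t h0 ht).trans (le_abs_self _)
    · rw [abs_of_nonpos h0] at ht ⊢
      have := key (-t) (by linarith) ht
      rw [Real.sin_neg] at this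
      exact this.trans (neg_le_abs _)
  have h3 : t ^ 2 / 4 ≤ Real.sin t ^ 2 := by
    rw [← sq_abs t, ← sq_abs (Real.sin t)]
    nlinarith [abs_nonneg t, abs_nonneg (Real.sin t)]
  have h4 := Real.add_one_le_exp (-(t ^ 2 / 16))
  rw [h1]
  linarith

variable {u : ι → E}

lemma abs_inner_le (hu : ∀ p, ‖u p‖ ≤ 1) {ξ : E} {r : ℝ} (hξ : ‖ξ‖ ≤ r) (p : ι) :
    |⟪u p, ξ⟫| ≤ r := by
  have h := abs_real_inner_le_norm (u p) ξ
  have h2 : ‖u p‖ * ‖ξ‖ ≤ 1 * r := mul_le_mul (hu p) hξ (norm_nonneg _) zero_le_one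
  linarith

lemma psi_ge (hu : ∀ p, ‖u p‖ ≤ 1) {ξ : E} (hξ : ‖ξ‖ ≤ 1 / 2) :
    Real.exp (-qq u ξ) ≤ Psi u ξ := by
  unfold qq Psi
  rw [← Finset.sum_neg_distrib, Real.exp_sum]
  exact Finset.prod_le_prod (fun p _ => (Real.exp_pos _).le)
    fun p _ => cos_ge_exp (abs_inner_le hu hξ p)

lemma HH_le (hu : ∀ p, ‖u p‖ ≤ 1) {ξ : E} (hξ : ‖ξ‖ ≤ 1 / 2) :
    HH u ξ ≤ Real.exp (-(qq u ξ / 16)) := by
  unfold qq HH
  rw [Finset.sum_div, ← Finset.sum_neg_distrib, Real.exp_sum]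
  exact Finset.prod_le_prod (fun p _ => (hh_pos _).le)
    fun p _ => hh_le_exp (abs_inner_le hu hξ p)

/-- The negative part is small. -/
lemma psi_neg {K : Type*} [Fintype K] [DecidableEq K] (u : K × Bool → E) {δ R : ℝ} (hδ : 0 ≤ δ)
    (hd : ∀ i, ‖u (i, true) - u (i, false)‖ ≤ δ) {ξ : E} (hξ : ‖ξ‖ ≤ R) :
    -(R * δ / 2) * HH u ξ ≤ Psi u ξ := by
  have hR : 0 ≤ R := (norm_nonneg _).trans hξ
  by_cases hpos : 0 ≤ Psi u ξ
  · have h1 := HH_pos u ξ
    have h2 : 0 ≤ R * δ / 2 := by positivity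
    nlinarith [mul_nonneg h2 h1.le]
  · push Not at hpos
    have hP : Psi u ξ = ∏ i : K, (Real.cos ⟪u (i, true), ξ⟫ * Real.cos ⟪u (i, false), ξ⟫) := by
      unfold Psi
      rw [Fintype.prod_prod_type]
      exact Finset.prod_congr rfl fun i _ => by rw [Fintype.prod_bool]
    have hH : HH u ξ = ∏ i : K, (hh ⟪u (i, true), ξ⟫ * hh ⟪u (i, false), ξ⟫) := by
      unfold HH
      rw [Fintype.prod_prod_type]
      exact Finset.prod_congr rfl fun i _ => by rw [Fintype.prod_bool]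
    have hex : ∃ i : K, Real.cos ⟪u (i, true), ξ⟫ * Real.cos ⟪u (i, false), ξ⟫ < 0 := by
      by_contra hcon
      push Not at hcon
      rw [hP] at hpos
      exact absurd (Finset.prod_nonneg fun i _ => hcon i) (not_le.mpr hpos)
    obtain ⟨i, hi⟩ := hex
    set a := ⟪u (i, true), ξ⟫ with ha
    set b := ⟪u (i, false), ξ⟫ with hb
    have hab : |a - b| ≤ R * δ := by
      rw [ha, hb, ← inner_sub_left]
      refine (abs_real_inner_le_norm _ _).trans ?_
      rw [mul_comm R δ]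
      exact mul_le_mul (hd i) hξ (norm_nonneg _) hδ
    have hsmall : |Real.cos a * Real.cos b| ≤ (R * δ / 2) ^ 2 := by
      rw [abs_of_neg hi]
      have e1 : -(Real.cos a * Real.cos b) ≤ Real.sin ((a - b) / 2) ^ 2 := by
        have h1 : Real.cos (a - b) = 1 - 2 * Real.sin ((a - b) / 2) ^ 2 := by
          have h2 := Real.cos_sq' ((a - b) / 2)
          have h3 := Real.cos_two_mul ((a - b) / 2)
          rw [show 2 * ((a - b) / 2) = a - b by ring] at h3
          rw [h3, h2]; ring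
        have h4 := Real.cos_sub a b
        have h5 := Real.cos_add a b
        have h6 := Real.neg_one_le_cos (a + b)
        nlinarith
      have e2 : Real.sin ((a - b) / 2) ^ 2 ≤ (R * δ / 2) ^ 2 := by
        rw [sq_le_sq]
        refine (Real.abs_sin_le_abs).trans ?_
        rw [abs_div, abs_of_pos (by norm_num : (0 : ℝ) < 2),
          abs_of_nonneg (show 0 ≤ R * δ / 2 by positivity)]
        linarith
      exact e1.trans e2
    have hpair : |Real.cos a * Real.cos b| ≤ (R * δ / 2) * (hh a * hh b) := by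
      have h0 : 0 ≤ |Real.cos a * Real.cos b| := abs_nonneg _
      have h1 : |Real.cos a * Real.cos b| ≤ (hh a * hh b) ^ 2 := by
        rw [abs_mul, mul_pow]
        exact mul_le_mul (abs_cos_le_hh_sq a) (abs_cos_le_hh_sq b) (abs_nonneg _) (sq_nonneg _)
      have h2 : |Real.cos a * Real.cos b| ^ 2 ≤ ((R * δ / 2) * (hh a * hh b)) ^ 2 := by
        rw [mul_pow, sq]
        exact mul_le_mul hsmall h1 h0 (sq_nonneg _)
      exact le_of_sq_le_sq h2 (by have := hh_pos a; have := hh_pos b; positivity)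
    have habs : |Psi u ξ| ≤ (R * δ / 2) * HH u ξ := by
      rw [hP, hH, Finset.abs_prod, ← Finset.mul_prod_erase _ _ (Finset.mem_univ i),
        ← Finset.mul_prod_erase Finset.univ
          (fun i => hh ⟪u (i, true), ξ⟫ * hh ⟪u (i, false), ξ⟫) (Finset.mem_univ i), ← mul_assoc]
      refine mul_le_mul hpair ?_ (Finset.prod_nonneg fun _ _ => abs_nonneg _) ?_
      · refine Finset.prod_le_prod (fun _ _ => abs_nonneg _) fun j _ => ?_
        rw [abs_mul]
        exact mul_le_mul (abs_cos_le_hh _) (abs_cos_le_hh _) (abs_nonneg _) (hh_pos _).le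
      · have := hh_pos a; have := hh_pos b; positivity
    have := neg_abs_le (Psi u ξ)
    linarith

lemma pd_hh (z : E) : PD (fun ξ : E => hh ⟪z, ξ⟫) := by
  have h1 := ((pd_cos z).mul (pd_cos z)).smul (1 / 4) (by norm_num)
  have h2 := (pd_const (E := E) (3 / 4) (by norm_num)).add h1
  refine (show (fun ξ : E => hh ⟪z, ξ⟫) = _ from ?_) ▸ h2
  funext ξ
  unfold hh
  ring

lemma pd_HH (u : ι → E) : PD (HH u) := by
  have := pd_prod (Finset.univ : Finset ι) (fun p => fun ξ : E => hh ⟪u p, ξ⟫)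
    fun p _ => pd_hh (u p)
  exact this

end Pool.Agent.Q268.RL
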