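import Pool.Agent.Q268.RL.NPB

/-!
Splitting a family of unit vectors into close pairs and a bounded rest; existence of one short signed
sum of the rest gives many short signed sums of the family.
-/

set_option autoImplicit false
set_option linter.unusedSectionVars false

namespace Pool.Agent.Q268.RL

open Finset Metric

/-- Splitting of a finite type with a colouring into monochromatic pairs and a bounded rest. -/
lemma exists_split {κ : Type} [Fintype κ] {L n₀ : ℕ} (hL : Fintype.card κ < L) (hn₀ : n₀ < L) :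
    ∀ (m : ℕ) (ι : Type) [Fintype ι] [DecidableEq ι] (χ : ι → κ), Fintype.card ι = m → n₀ ≤ m →
      ∃ (K J : Type) (_ : Fintype K) (_ : DecidableEq K) (_ : Fintype J) (_ : DecidableEq J)
        (e : (K × Bool) ⊕ J ≃ ι), (∀ i : K, χ (e (Sum.inl (i, true))) = χ (e (Sum.inl (i, false)))) ∧
        n₀ ≤ Fintype.card J ∧ Fintype.card J ≤ L := by
  intro m
  induction m using Nat.strong_induction_on with
  | _ m ih =>
    intro ι _ _ χ hm hn
    by_cases hmL : m ≤ L
    · exact ⟨Empty, ι, inferInstance, inferInstance, inferInstance, inferInstance,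
        (Equiv.sumCongr (Equiv.equivEmpty (Empty × Bool)) (Equiv.refl ι)).trans
          (Equiv.emptySum Empty ι), fun i => i.elim, by rw [hm]; exact hn, by rw [hm]; exact hmL⟩
    · push Not at hmL
      obtain ⟨a, b, hab, hχ⟩ := Fintype.exists_ne_map_eq_of_card_lt χ (by omega)
      have hcard : Fintype.card {x : ι // x ≠ a ∧ x ≠ b} = m - 2 := by
        rw [Fintype.card_subtype]
        have h1 : (Finset.univ.filter fun x : ι => x ≠ a ∧ x ≠ b) = Finset.univ \ {a, b} := by
          ext x
          simp
        rw [h1, Finset.card_sdiff_of_subset (Finset.subset_univ _), Finset.card_pair hab,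
          Finset.card_univ, hm]
      obtain ⟨K, J, _, _, _, _, e, he, hJ1, hJ2⟩ := ih (m - 2) (by omega)
        {x : ι // x ≠ a ∧ x ≠ b} (fun x => χ x) hcard (by omega)
      let g : (Option K × Bool) ⊕ J → ι := fun x => match x with
        | Sum.inl (none, true) => a
        | Sum.inl (none, false) => b
        | Sum.inl (some i, s) => (e (Sum.inl (i, s)) : ι)
        | Sum.inr j => (e (Sum.inr j) : ι)
      have hg : Function.Bijective g := by
        constructor
        · rintro (⟨_ | i, _ | _⟩ | j) (⟨_ | i', _ | _⟩ | j') h <;> simp only [g] at h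
          all_goals first
            | rfl
            | exact absurd h hab
            | exact absurd h hab.symm
            | exact absurd h (e _).2.1
            | exact absurd h (e _).2.2
            | exact absurd h.symm (e _).2.1
            | exact absurd h.symm (e _).2.2
            | (have h2 := e.injective (Subtype.ext h); simp at h2; try simp [h2])
        · intro x
          by_cases hxa : x = a
          · exact ⟨Sum.inl (none, true), by simp [g, hxa]⟩
          by_cases hxb : x = b
          · exact ⟨Sum.inl (none, false), by simp [g, hxb]⟩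
          obtain ⟨y, hy⟩ := e.surjective ⟨x, hxa, hxb⟩
          rcases y with ⟨i, s⟩ | j
          · exact ⟨Sum.inl (some i, s), by simp [g, hy]⟩
          · exact ⟨Sum.inr j, by simp [g, hy]⟩
      refine ⟨Option K, J, inferInstance, inferInstance, inferInstance, inferInstance,
        Equiv.ofBijective g hg, ?_, hJ1, hJ2⟩
      rintro (_ | i)
      · exact hχ
      · exact he i

variable {E : Type*} [NormedAddCommGroup E] [InnerProductSpace ℝ E]

lemma sm_split {ι K J : Type} [Fintype ι] [Fintype K] [Fintype J] (e : (K × Bool) ⊕ J ≃ ι)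
    (v : ι → E) (a : K × Bool → Bool) (b : J → Bool) :
    sm v (fun i => Sum.elim a b (e.symm i))
      = sm (fun p => v (e (Sum.inl p))) a + sm (fun j => v (e (Sum.inr j))) b := by
  unfold sm
  rw [← Equiv.sum_comp e, Fintype.sum_sum_type]
  simp

lemma pr_split {ι K J : Type} [Fintype ι] [DecidableEq ι] [Fintype K] [DecidableEq K] [Fintype J]
    [DecidableEq J] (e : (K × Bool) ⊕ J ≃ ι) (v : ι → E) {r r' η : ℝ} (hr : r' + η ≤ r)
    (b : J → Bool) (hb : ‖sm (fun j => v (e (Sum.inr j))) b‖ ≤ r') :
    pr (fun p => v (e (Sum.inl p))) η / 2 ^ Fintype.card J ≤ pr v r := by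
  unfold pr
  have hcard : Fintype.card ι = Fintype.card (K × Bool) + Fintype.card J := by
    rw [← Fintype.card_congr e, Fintype.card_sum]
  rw [hcard, pow_add, div_div]
  refine div_le_div_of_nonneg_right ?_ (by positivity)
  norm_cast
  refine Finset.card_le_card_of_injOn (fun a => fun i => Sum.elim a b (e.symm i)) ?_ ?_
  · intro a ha
    simp only [Finset.coe_filter, Finset.mem_univ, true_and, Set.mem_setOf_eq] at ha ⊢
    rw [sm_split]
    exact (norm_add_le _ _).trans (by linarith)
  · intro a _ a' _ h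
    funext p
    have := congrFun h (e (Sum.inl p))
    simpa using this

/-- Existence of short signed sums of bounded subfamilies gives many short signed sums. -/
theorem many_of_exists (E : Type*) [NormedAddCommGroup E] [InnerProductSpace ℝ E]
    [FiniteDimensional ℝ E] {r' r : ℝ} (hr : r' < r) (n₀ s : ℕ)
    (hex : ∀ m : ℕ, n₀ ≤ m → m % 2 = s % 2 → ∀ v : Fin m → E, (∀ i, ‖v i‖ = 1) →
      ∃ ε : Fin m → Bool, ‖sm v ε‖ ≤ r') :
    ∃ c : ℝ, 0 < c ∧ ∃ n₁ : ℕ, ∀ n : ℕ, n₁ ≤ n → n % 2 = s % 2 → ∀ v : Fin n → E,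
      (∀ i, ‖v i‖ = 1) → c ≤ (√(n : ℝ)) ^ Module.finrank ℝ E * pr v r := by
  classical
  obtain ⟨δ, c, hδ, hc, hnp⟩ := near_pairs E (η := r - r') (by linarith)
  -- a finite cover of the sphere
  have hcov : ∃ t : Finset E, ∀ x : E, ‖x‖ = 1 → ∃ y ∈ t, dist x y < δ / 2 := by
    obtain ⟨t, -, ht, hcov⟩ := finite_cover_balls_of_compact (isCompact_sphere (0 : E) 1)
      (half_pos hδ)
    refine ⟨ht.toFinset, fun x hx => ?_⟩
    have h1 := hcov (show x ∈ sphere (0 : E) 1 by simpa using hx)
    simp only [Set.mem_iUnion, mem_ball] at h1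
    obtain ⟨y, hy, hxy⟩ := h1
    exact ⟨y, by simpa using hy, hxy⟩
  obtain ⟨t, ht⟩ := hcov
  set N := t.card with hN
  set L := max N n₀ + 1 with hL
  refine ⟨c / 2 ^ L, by positivity, L + 1, fun n hn hpar v hv => ?_⟩
  have hcol : ∀ i : Fin n, ∃ y : {y // y ∈ t}, dist (v i) y < δ / 2 := fun i => by
    obtain ⟨y, hy, h⟩ := ht (v i) (hv i)
    exact ⟨⟨y, hy⟩, h⟩
  choose χ hχ using hcol
  let κe : {y // y ∈ t} ≃ Fin N := t.equivFin
  obtain ⟨K, J, _, _, _, _, e, he, hJ1, hJ2⟩ := exists_split (κ := Fin N) (L := L) (n₀ := n₀)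
    (by rw [Fintype.card_fin]; omega) (by omega) n (Fin n) (fun i => κe (χ i)) (by simp) (by omega)
  have hcard : n = 2 * Fintype.card K + Fintype.card J := by
    have h := Fintype.card_congr e
    rw [Fintype.card_sum, Fintype.card_prod, Fintype.card_bool, Fintype.card_fin] at h
    omega
  have hK : 0 < Fintype.card K := by omega
  have : Nonempty K := Fintype.card_pos_iff.mp hK
  -- signs on the rest
  obtain ⟨b, hb⟩ : ∃ b : J → Bool, ‖sm (fun j => v (e (Sum.inr j))) b‖ ≤ r' := by
    let f := (Fintype.equivFin J).symm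
    obtain ⟨ε, hε⟩ := hex (Fintype.card J) hJ1 (by omega)
      (fun i => v (e (Sum.inr (f i)))) (fun i => hv _)
    refine ⟨fun j => ε (f.symm j), ?_⟩
    have h1 : sm (fun j => v (e (Sum.inr j))) (fun j => ε (f.symm j))
        = sm (fun i => v (e (Sum.inr (f i)))) ε := by
      unfold sm
      rw [← Equiv.sum_comp f]
      simp
    rw [h1]
    exact hε
  have h1 := pr_split e v (r := r) (r' := r') (η := r - r') (by linarith) b hb
  have h2 := hnp K (fun p => v (e (Sum.inl p))) (fun p => (hv _).le) (fun i => by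
    have h3 := κe.injective (he i)
    have h4 := hχ (e (Sum.inl (i, true)))
    have h5 := hχ (e (Sum.inl (i, false)))
    rw [h3] at h4
    rw [← dist_eq_norm]
    have h6 := dist_triangle_right (v (e (Sum.inl (i, true)))) (v (e (Sum.inl (i, false))))
      (χ (e (Sum.inl (i, false))) : E)
    linarith)
  have hn0 : (0 : ℝ) < n := by exact_mod_cast (by omega : 0 < n)
  have hsn : 0 < √(n : ℝ) := Real.sqrt_pos.mpr hn0
  have hKn : (Fintype.card K : ℝ) ≤ n := by exact_mod_cast (by omega : Fintype.card K ≤ n)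
  have hK0 : (0 : ℝ) < Fintype.card K := by exact_mod_cast hK
  have hsK : 0 < √(Fintype.card K : ℝ) := Real.sqrt_pos.mpr hK0
  have h7 : (1 / √(n : ℝ)) ^ Module.finrank ℝ E ≤ (1 / √(Fintype.card K : ℝ)) ^ Module.finrank ℝ E := by
    gcongr
  have h8 : c * (1 / √(n : ℝ)) ^ Module.finrank ℝ E / 2 ^ L ≤ pr v r := by
    refine le_trans ?_ h1
    apply div_le_div₀ ?_ ((mul_le_mul_of_nonneg_left h7 hc.le).trans h2) (by positivity)
    · exact pow_le_pow_right₀ (by norm_num) hJ2
    · unfold pr; positivity
  calc c / 2 ^ L = √(n : ℝ) ^ Module.finrank ℝ E * (c * (1 / √(n : ℝ)) ^ Module.finrank ℝ E / 2 ^ L) := by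
        have : √(n : ℝ) ^ Module.finrank ℝ E * (1 / √(n : ℝ)) ^ Module.finrank ℝ E = 1 := by
          rw [← mul_pow, mul_one_div_cancel hsn.ne', one_pow]
        calc c / 2 ^ L = c / 2 ^ L * (√(n : ℝ) ^ Module.finrank ℝ E * (1 / √(n : ℝ)) ^ Module.finrank ℝ E) := by
              rw [this, mul_one]
          _ = _ := by ring
    _ ≤ _ := by gcongr

end Pool.Agent.Q268.RL
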